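import Pool.Agent.Helper74.BS.Final

set_option autoImplicit false

open Filter Pool.Agent.Helper74.BS

/-- Bounds for `g(2, s)`: the linear term of `g(2, s) - s ^ 2 / 3` diverges, and no quadratic
polynomial approximates `g(2, s)` up to an error `O(s)`. -/
theorem Pool.Agent.Results.MP_208440_co.NoQuadraticLaw.result :
    (∀ s : ℕ, 2 ≤ s → IsGreatest {N | ∀ n, 1 ≤ n → n ≤ N → phi n s ≤ 2} (g s)) ∧
    (∀ s : ℕ, 2 ≤ s → (s : ℝ) ^ 2 / 3 - 3 * s * √s - 1 ≤ g s) ∧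
    (∃ c : ℝ, 0 < c ∧ ∃ s₀ : ℕ, ∀ s : ℕ, s₀ ≤ s →
      (g s : ℝ) ≤ (s : ℝ) ^ 2 / 3 - c * s * √(Real.log s / Real.log (Real.log s))) ∧
    ∀ a b d : ℝ,
      Tendsto (fun s : ℕ => |(g s : ℝ) - (a * (s : ℝ) ^ 2 + b * s + d)| / s) atTop atTop :=
  ⟨fun _ hs => isGreatest_g (by omega), fun _ hs => g_ge (by omega), g_le, g_not_quadratic⟩
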